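import Mathlib
import Pool.Agent.H12.Cut52

set_option autoImplicit false

namespace Pool.Agent.Results.MP_d015b4_co.NoAntichain

open Pool.Agent.H12.Cut52

/-- K is a cutset for x: its elements are incomparable to x and K with x meets every maximal chain. -/
def CutsetFor {P : Type} [PartialOrder P] (x : P) (K : Set P) : Prop :=
  (∀ k ∈ K, ¬ k ≤ x ∧ ¬ x ≤ k) ∧
    ∀ C : Set P, IsMaxChain (· ≤ ·) C → (C ∩ insert x K).Nonempty

/-- In some finite distributive lattice an element with minimum cutset size m lies in no maximal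
antichain with m + 1 elements. -/
theorem result :
    ¬ ∀ (L : Type) [DistribLattice L] [Finite L] (x : L) (m : ℕ),
      IsLeast {n : ℕ | ∃ K : Set L, CutsetFor x K ∧ K.ncard = n} m →
      ∃ A : Set L, Maximal (IsAntichain (· ≤ ·)) A ∧ x ∈ A ∧ A.ncard = m + 1 := by
  intro h
  obtain ⟨A, h1, h2, h3⟩ := h L (enc 15) 9 ⟨upper, by
    rintro _ ⟨K, hK, rfl⟩
    exact lower K hK.1 hK.2⟩
  exact no_anti A h1 h2 h3

end Pool.Agent.Results.MP_d015b4_co.NoAntichain
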